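import Pool.Agent.U398.MV.Stm2
import Pool.Agent.U747.MV.EN

set_option autoImplicit false

/-!
# Project MV2, package ENS: the energy estimate with a shift
-/

namespace Pool.Agent.U114.MV2.ENS

open MeasureTheory Filter Topology Set Complex
open Pool.Agent.U398.MV (S_ENS Cor)
open Pool.Agent.U747.MV (int_pow int_parts)

lemma norm_g {c0 ε : ℝ} (V P D : ℂ) (hE : ‖V + (c0 : ℂ) * P + D‖ ≤ ε) :
    ‖V + (c0 : ℂ) * P‖ ≤ ‖D‖ + ε := by
  have h1 : V + (c0 : ℂ) * P = (V + (c0 : ℂ) * P + D) - D := by ring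
  rw [h1]
  have h2 := norm_sub_le (V + (c0 : ℂ) * P + D) D
  linarith

lemma sq_g {d ε : ℝ} : (d + ε) ^ 2 ≤ 2 * d ^ 2 + 2 * ε ^ 2 := by
  nlinarith [sq_nonneg (d - ε)]

/-- the bilinear estimate at a point -/
lemma key_bl {c0 η ε : ℝ} (hc0 : 0 ≤ c0) (hc1 : c0 ≤ 1) (hη : 0 < η) (V W P Q D E : ℂ)
    (hE : ‖V + (c0 : ℂ) * P + D‖ ≤ ε) (hE' : ‖W + (c0 : ℂ) * Q + E‖ ≤ ε) :
    ‖V * (starRingEnd ℂ) W - ((c0 ^ 2 : ℝ) : ℂ) * (P * (starRingEnd ℂ) Q)‖ ≤
      1 / 2 * (η * ‖P‖ ^ 2 + (1 + 1 / η) * (2 * ‖D‖ ^ 2 + 2 * ε ^ 2)) +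
      1 / 2 * (η * ‖Q‖ ^ 2 + (1 + 1 / η) * (2 * ‖E‖ ^ 2 + 2 * ε ^ 2)) := by
  set X := V + (c0 : ℂ) * P with hX
  set Y := W + (c0 : ℂ) * Q with hY
  have hx : ‖X‖ ≤ ‖D‖ + ε := norm_g V P D hE
  have hy : ‖Y‖ ≤ ‖E‖ + ε := norm_g W Q E hE'
  have e0 : V * (starRingEnd ℂ) W - ((c0 ^ 2 : ℝ) : ℂ) * (P * (starRingEnd ℂ) Q) =
      X * (starRingEnd ℂ) Y - X * (starRingEnd ℂ) ((c0 : ℂ) * Q) -
        ((c0 : ℂ) * P) * (starRingEnd ℂ) Y := by
    rw [hX, hY]
    simp only [map_add, map_mul, Complex.conj_ofReal]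
    push_cast
    ring
  have e1 : ‖V * (starRingEnd ℂ) W - ((c0 ^ 2 : ℝ) : ℂ) * (P * (starRingEnd ℂ) Q)‖ ≤
      ‖X‖ * ‖Y‖ + ‖X‖ * (c0 * ‖Q‖) + (c0 * ‖P‖) * ‖Y‖ := by
    rw [e0]
    have h1 := norm_sub_le (X * (starRingEnd ℂ) Y - X * (starRingEnd ℂ) ((c0 : ℂ) * Q))
      (((c0 : ℂ) * P) * (starRingEnd ℂ) Y)
    have h2 := norm_sub_le (X * (starRingEnd ℂ) Y) (X * (starRingEnd ℂ) ((c0 : ℂ) * Q))
    have n1 : ‖X * (starRingEnd ℂ) Y‖ = ‖X‖ * ‖Y‖ := by
      rw [norm_mul, RCLike.norm_conj]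
    have n2 : ‖X * (starRingEnd ℂ) ((c0 : ℂ) * Q)‖ = ‖X‖ * (c0 * ‖Q‖) := by
      rw [norm_mul, RCLike.norm_conj, norm_mul, Complex.norm_real, Real.norm_eq_abs,
        abs_of_nonneg hc0]
    have n3 : ‖((c0 : ℂ) * P) * (starRingEnd ℂ) Y‖ = (c0 * ‖P‖) * ‖Y‖ := by
      rw [norm_mul, RCLike.norm_conj, norm_mul, Complex.norm_real, Real.norm_eq_abs,
        abs_of_nonneg hc0]
    rw [n1, n2] at h2
    rw [n3] at h1
    linarith
  refine e1.trans ?_
  have hε : 0 ≤ ε := (norm_nonneg _).trans hE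
  set x := ‖X‖
  set y := ‖Y‖
  set p := ‖P‖
  set q := ‖Q‖
  have hx0 : 0 ≤ x := norm_nonneg _
  have hy0 : 0 ≤ y := norm_nonneg _
  have hp0 : 0 ≤ p := norm_nonneg _
  have hq0 : 0 ≤ q := norm_nonneg _
  have hx2 : x ^ 2 ≤ 2 * ‖D‖ ^ 2 + 2 * ε ^ 2 :=
    (pow_le_pow_left₀ hx0 hx 2).trans sq_g
  have hy2 : y ^ 2 ≤ 2 * ‖E‖ ^ 2 + 2 * ε ^ 2 :=
    (pow_le_pow_left₀ hy0 hy 2).trans sq_g
  have i1 : x * (c0 * q) ≤ 1 / 2 * (η * q ^ 2) + 1 / 2 * (1 / η * x ^ 2) := by
    have h6 : 0 ≤ (η * q - x) ^ 2 / η := div_nonneg (sq_nonneg _) hη.le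
    have h7 : (η * q - x) ^ 2 / η = η * q ^ 2 - 2 * (q * x) + 1 / η * x ^ 2 := by
      field_simp
      ring
    have h8 : x * (c0 * q) ≤ x * q :=
      mul_le_mul_of_nonneg_left (mul_le_of_le_one_left hq0 hc1) hx0
    nlinarith
  have i2 : (c0 * p) * y ≤ 1 / 2 * (η * p ^ 2) + 1 / 2 * (1 / η * y ^ 2) := by
    have h6 : 0 ≤ (η * p - y) ^ 2 / η := div_nonneg (sq_nonneg _) hη.le
    have h7 : (η * p - y) ^ 2 / η = η * p ^ 2 - 2 * (p * y) + 1 / η * y ^ 2 := by
      field_simp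
      ring
    have h8 : (c0 * p) * y ≤ p * y :=
      mul_le_mul_of_nonneg_right (mul_le_of_le_one_left hp0 hc1) hy0
    nlinarith
  have i3 : x * y ≤ 1 / 2 * x ^ 2 + 1 / 2 * y ^ 2 := by nlinarith [sq_nonneg (x - y)]
  have h9 : 0 ≤ 1 + 1 / η := by positivity
  have j1 := mul_le_mul_of_nonneg_left hx2 h9
  have j2 := mul_le_mul_of_nonneg_left hy2 h9
  have k1 : (1 + 1 / η) * x ^ 2 = x ^ 2 + 1 / η * x ^ 2 := by ring
  have k2 : (1 + 1 / η) * y ^ 2 = y ^ 2 + 1 / η * y ^ 2 := by ring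
  linarith

/-- the part where both points are in `[α, β]` -/
lemma mid {c0 η ε α β s : ℝ} (hc0 : 0 ≤ c0) (hc1 : c0 ≤ 1) (hη : 0 < η) (hs : 0 ≤ s)
    (hab : α ≤ β - s)
    (V P D : ℝ → ℂ) (hV : Continuous V) (hP : Continuous P) (hD : Continuous D)
    (hE : ∀ t ∈ Icc α β, ‖V t + (c0 : ℂ) * P t + D t‖ ≤ ε) :
    ‖(∫ t in α..(β - s), V t * (starRingEnd ℂ) (V (t + s))) -
        ((c0 ^ 2 : ℝ) : ℂ) * ∫ t in α..(β - s), P t * (starRingEnd ℂ) (P (t + s))‖ ≤
      η * (∫ t in α..β, ‖P t‖ ^ 2) +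
        (1 + 1 / η) * (2 * (∫ t in α..β, ‖D t‖ ^ 2) + 2 * ε ^ 2 * (β - α)) := by
  have hab' : α ≤ β := by linarith
  set h : ℝ → ℝ := fun t => η * ‖P t‖ ^ 2 + (1 + 1 / η) * (2 * ‖D t‖ ^ 2 + 2 * ε ^ 2) with hh
  have ch : Continuous h := by
    rw [hh]
    fun_prop
  have h0 : ∀ t, 0 ≤ h t := fun t => by
    rw [hh]
    positivity
  have cPs : Continuous fun t => P t * (starRingEnd ℂ) (P (t + s)) :=
    hP.mul (Complex.continuous_conj.comp (hP.comp (by fun_prop)))
  have cVs : Continuous fun t => V t * (starRingEnd ℂ) (V (t + s)) :=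
    hV.mul (Complex.continuous_conj.comp (hV.comp (by fun_prop)))
  rw [← intervalIntegral.integral_const_mul, ← intervalIntegral.integral_sub
    (cVs.intervalIntegrable _ _) ((cPs.intervalIntegrable _ _).const_mul _)]
  have h1 : ‖∫ t in α..(β - s), (V t * (starRingEnd ℂ) (V (t + s)) -
        ((c0 ^ 2 : ℝ) : ℂ) * (P t * (starRingEnd ℂ) (P (t + s))))‖ ≤
      ∫ t in α..(β - s), (1 / 2 * h t + 1 / 2 * h (t + s)) := by
    apply intervalIntegral.norm_integral_le_of_norm_le hab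
    · refine Filter.Eventually.of_forall fun t ht => ?_
      refine key_bl hc0 hc1 hη _ _ _ _ _ _ (hE t ⟨ht.1.le, by linarith [ht.2]⟩)
        (hE (t + s) ⟨by linarith [ht.1], by linarith [ht.2]⟩)
    · apply Continuous.intervalIntegrable
      exact (ch.const_mul _).add ((ch.comp (by fun_prop)).const_mul _)
  refine h1.trans ?_
  have chs : Continuous fun t => h (t + s) := ch.comp (by fun_prop)
  rw [intervalIntegral.integral_add ((ch.intervalIntegrable _ _).const_mul _)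
    ((chs.intervalIntegrable _ _).const_mul _),
    intervalIntegral.integral_const_mul, intervalIntegral.integral_const_mul]
  have h2 : ∫ t in α..(β - s), h (t + s) = ∫ t in (α + s)..β, h t := by
    rw [intervalIntegral.integral_comp_add_right]
    ring_nf
  have h3 : ∫ t in α..(β - s), h t ≤ ∫ t in α..β, h t := by
    apply intervalIntegral.integral_mono_interval le_rfl hab (by linarith)
    · exact Filter.Eventually.of_forall fun u => h0 u
    · exact ch.intervalIntegrable _ _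
  have h4 : ∫ t in (α + s)..β, h t ≤ ∫ t in α..β, h t := by
    apply intervalIntegral.integral_mono_interval (by linarith) (by linarith) le_rfl
    · exact Filter.Eventually.of_forall fun u => h0 u
    · exact ch.intervalIntegrable _ _
  have h5 : ∫ t in α..β, h t = η * (∫ t in α..β, ‖P t‖ ^ 2) +
        (1 + 1 / η) * (2 * (∫ t in α..β, ‖D t‖ ^ 2) + 2 * ε ^ 2 * (β - α)) := by
    have iP : IntervalIntegrable (fun t => ‖P t‖ ^ 2) volume α β :=
      (hP.norm.pow 2).intervalIntegrable _ _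
    have iD : IntervalIntegrable (fun t => ‖D t‖ ^ 2) volume α β :=
      (hD.norm.pow 2).intervalIntegrable _ _
    rw [hh, intervalIntegral.integral_add (iP.const_mul _)
      (((iD.const_mul _).add intervalIntegrable_const).const_mul _),
      intervalIntegral.integral_const_mul, intervalIntegral.integral_const_mul,
      intervalIntegral.integral_add (iD.const_mul _) intervalIntegrable_const,
      intervalIntegral.integral_const_mul, intervalIntegral.integral_const, smul_eq_mul]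
    ring
  rw [h2, ← h5]
  linarith

/-- the part where one of the points is not in `[α, β]` -/
lemma tail {α β s θ : ℝ} (hθ : 0 < θ) (hab : α ≤ β - s)
    (V : ℝ → ℂ) (hV : Continuous V) (iV : Integrable (fun t : ℝ => ‖V t‖ ^ 2)) :
    ‖(∫ t : ℝ, V t * (starRingEnd ℂ) (V (t + s))) -
        ∫ t in α..(β - s), V t * (starRingEnd ℂ) (V (t + s))‖ ≤
      θ * (∫ t : ℝ, ‖V t‖ ^ 2) + 1 / θ * ∫ t in (Icc α β)ᶜ, ‖V t‖ ^ 2 := by
  set F : ℝ → ℂ := fun t => V t * (starRingEnd ℂ) (V (t + s)) with hF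
  have cF : Continuous F := hV.mul (Complex.continuous_conj.comp (hV.comp (by fun_prop)))
  have iVs : Integrable (fun t : ℝ => ‖V (t + s)‖ ^ 2) := iV.comp_add_right s
  have nF : ∀ t, ‖F t‖ = ‖V t‖ * ‖V (t + s)‖ := fun t => by
    rw [hF]
    simp only [norm_mul, RCLike.norm_conj]
  have iF : Integrable F := by
    refine Integrable.mono' ((iV.add iVs)) cF.aestronglyMeasurable ?_
    refine Filter.Eventually.of_forall fun t => ?_
    rw [nF]
    simp only [Pi.add_apply]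
    nlinarith [sq_nonneg (‖V t‖ - ‖V (t + s)‖), sq_nonneg (‖V t‖ + ‖V (t + s)‖),
      norm_nonneg (V t), norm_nonneg (V (t + s))]
  set g : ℝ → ℝ := (Icc α β)ᶜ.indicator (fun t => ‖V t‖ ^ 2) with hg
  have ms : MeasurableSet ((Icc α β)ᶜ) := measurableSet_Icc.compl
  have ig : Integrable g := iV.indicator ms
  set h : ℝ → ℝ := fun t => θ / 2 * ‖V t‖ ^ 2 + 1 / (2 * θ) * g t with hh
  have ih : Integrable h := (iV.const_mul _).add (ig.const_mul _)
  have ihs : Integrable (fun t => h (t + s)) := ih.comp_add_right s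
  have g0 : ∀ t, 0 ≤ g t := fun t => by
    rw [hg]
    exact indicator_nonneg (fun _ _ => sq_nonneg _) t
  have h0 : ∀ t, 0 ≤ h t := fun t => by
    have := g0 t
    rw [hh]
    positivity
  have hsplit : (∫ t : ℝ, F t) - ∫ t in α..(β - s), F t = ∫ t in (Icc α (β - s))ᶜ, F t := by
    rw [← integral_add_compl (measurableSet_Icc (a := α) (b := β - s)) iF,
      intervalIntegral.integral_of_le hab, integral_Icc_eq_integral_Ioc]
    ring
  rw [hsplit]
  have am : ∀ x y : ℝ, x * y ≤ θ / 2 * y ^ 2 + 1 / (2 * θ) * x ^ 2 := by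
    intro x y
    have h6 : 0 ≤ (θ * y - x) ^ 2 / (2 * θ) := div_nonneg (sq_nonneg _) (by positivity)
    have h7 : (θ * y - x) ^ 2 / (2 * θ) = θ / 2 * y ^ 2 - x * y + 1 / (2 * θ) * x ^ 2 := by
      field_simp
      ring
    linarith
  have hpt : ∀ t ∈ (Icc α (β - s))ᶜ, ‖F t‖ ≤ h t + h (t + s) := by
    intro t ht
    rw [nF]
    have g1 := g0 t
    have g2 := g0 (t + s)
    have hθ1 : 0 ≤ 1 / (2 * θ) := by positivity
    have hθ2 : 0 ≤ θ / 2 := by positivity
    have z1 : 0 ≤ 1 / (2 * θ) * g t := mul_nonneg hθ1 g1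
    have z2 : 0 ≤ 1 / (2 * θ) * g (t + s) := mul_nonneg hθ1 g2
    have z3 : 0 ≤ θ / 2 * ‖V t‖ ^ 2 := mul_nonneg hθ2 (sq_nonneg _)
    have z4 : 0 ≤ θ / 2 * ‖V (t + s)‖ ^ 2 := mul_nonneg hθ2 (sq_nonneg _)
    by_cases h1 : α ≤ t
    · have h2 : β - s < t := by
        by_contra h3
        exact ht ⟨h1, not_lt.1 h3⟩
      have h3 : g (t + s) = ‖V (t + s)‖ ^ 2 := by
        rw [hg, indicator_of_mem]
        intro h4
        linarith [h4.2]
      have h4 := am ‖V (t + s)‖ ‖V t‖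
      simp only [hh]
      rw [h3] at z2 ⊢
      nlinarith
    · push Not at h1
      have h3 : g t = ‖V t‖ ^ 2 := by
        rw [hg, indicator_of_mem]
        intro h4
        linarith [h4.1]
      have h4 := am ‖V t‖ ‖V (t + s)‖
      simp only [hh]
      rw [h3] at z1 ⊢
      nlinarith
  calc ‖∫ t in (Icc α (β - s))ᶜ, F t‖ ≤ ∫ t in (Icc α (β - s))ᶜ, ‖F t‖ :=
        norm_integral_le_integral_norm _
    _ ≤ ∫ t in (Icc α (β - s))ᶜ, (h t + h (t + s)) := by
        apply setIntegral_mono_on iF.norm.integrableOn (ih.add ihs).integrableOn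
          measurableSet_Icc.compl
        exact hpt
    _ ≤ ∫ t : ℝ, (h t + h (t + s)) := by
        apply setIntegral_le_integral (ih.add ihs)
        exact Filter.Eventually.of_forall fun t => add_nonneg (h0 t) (h0 (t + s))
    _ = 2 * ∫ t : ℝ, h t := by
        rw [integral_add ih ihs, integral_add_right_eq_self]
        ring
    _ = θ * (∫ t : ℝ, ‖V t‖ ^ 2) + 1 / θ * ∫ t in (Icc α β)ᶜ, ‖V t‖ ^ 2 := by
        rw [hh, integral_add (iV.const_mul _) (ig.const_mul _), integral_const_mul,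
          integral_const_mul, hg, integral_indicator ms]
        field_simp

/-- the total mass -/
lemma mass {c0 ε α β : ℝ} (hc0 : 0 ≤ c0) (hc1 : c0 ≤ 1) (hab : α ≤ β)
    (V P D : ℝ → ℂ) (hV : Continuous V) (hP : Continuous P) (hD : Continuous D)
    (hE : ∀ t ∈ Icc α β, ‖V t + (c0 : ℂ) * P t + D t‖ ≤ ε)
    (iV : Integrable (fun t : ℝ => ‖V t‖ ^ 2)) :
    (∫ t : ℝ, ‖V t‖ ^ 2) ≤ 3 * (∫ t in α..β, ‖P t‖ ^ 2) + 3 * (∫ t in α..β, ‖D t‖ ^ 2) +
      3 * ε ^ 2 * (β - α) + ∫ t in (Icc α β)ᶜ, ‖V t‖ ^ 2 := by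
  have hVin : (∫ t : ℝ, ‖V t‖ ^ 2) = (∫ t in α..β, ‖V t‖ ^ 2) +
      ∫ t in (Icc α β)ᶜ, ‖V t‖ ^ 2 := by
    rw [← integral_add_compl (measurableSet_Icc (a := α) (b := β)) iV,
      intervalIntegral.integral_of_le hab, integral_Icc_eq_integral_Ioc]
  have iP : IntervalIntegrable (fun t => ‖P t‖ ^ 2) volume α β :=
    (hP.norm.pow 2).intervalIntegrable _ _
  have iD : IntervalIntegrable (fun t => ‖D t‖ ^ 2) volume α β :=
    (hD.norm.pow 2).intervalIntegrable _ _
  have iV' : IntervalIntegrable (fun t => ‖V t‖ ^ 2) volume α β :=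
    (hV.norm.pow 2).intervalIntegrable _ _
  have h1 : ∫ t in α..β, ‖V t‖ ^ 2 ≤ ∫ t in α..β, (3 * ‖P t‖ ^ 2 + 3 * ‖D t‖ ^ 2 + 3 * ε ^ 2) := by
    apply intervalIntegral.integral_mono_on hab iV'
    · exact (((iP.const_mul _).add (iD.const_mul _)).add intervalIntegrable_const)
    · intro t ht
      have h2 := norm_g (V t) (P t) (D t) (hE t ht)
      have h3 : ‖V t‖ ≤ ‖P t‖ + ‖D t‖ + ε := by
        have h4 : V t = (V t + (c0 : ℂ) * P t) - (c0 : ℂ) * P t := by ring
        have h5 := norm_sub_le (V t + (c0 : ℂ) * P t) ((c0 : ℂ) * P t)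
        rw [← h4, norm_mul, Complex.norm_real, Real.norm_eq_abs, abs_of_nonneg hc0] at h5
        have h6 : c0 * ‖P t‖ ≤ ‖P t‖ := mul_le_of_le_one_left (norm_nonneg _) hc1
        linarith
      have h4 := pow_le_pow_left₀ (norm_nonneg _) h3 2
      refine h4.trans ?_
      nlinarith [sq_nonneg (‖P t‖ - ‖D t‖), sq_nonneg (‖P t‖ - ε), sq_nonneg (‖D t‖ - ε)]
  rw [intervalIntegral.integral_add ((iP.const_mul _).add (iD.const_mul _))
    intervalIntegrable_const, intervalIntegral.integral_add (iP.const_mul _) (iD.const_mul _),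
    intervalIntegral.integral_const_mul, intervalIntegral.integral_const_mul,
    intervalIntegral.integral_const, smul_eq_mul] at h1
  rw [hVin]
  linarith

theorem t_ENS : S_ENS := by
  intro C1 hC1
  refine ⟨400 * C1 ^ 2, by positivity, ?_⟩
  intro T L s hL hT hs0 hsT V P D v vs r cV cP cD cv cvs cr hr1 hr2 iV _cVn cCor hout hE hv hPn hPs hDn
  have hL0 : (0 : ℝ) < L := by linarith
  have hT0 : (0 : ℝ) < T := by linarith
  have hC0 : (0 : ℝ) < C1 := by linarith
  have hM : (1 : ℝ) ≤ L / 2 := by linarith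
  have hM0 : (0 : ℝ) ≤ L / 2 := by linarith
  have hsT4 : s ≤ T / 4 := by
    refine hsT.trans ?_
    exact div_le_div_of_nonneg_left hT0.le (by norm_num) hL
  have hab : T + L ≤ 2 * T - L := by linarith
  have habs : T + L ≤ 2 * T - L - s := by linarith
  have hpi := Real.pi_gt_three
  set c0 : ℝ := 1 / Real.sqrt (2 * Real.pi) with hc0def
  have hc00 : 0 ≤ c0 := by positivity
  have hc0sq : c0 ^ 2 = 1 / (2 * Real.pi) := by
    rw [hc0def, div_pow, one_pow, Real.sq_sqrt (by positivity)]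
  have hc01 : c0 ≤ 1 := by
    have h1 : c0 ^ 2 ≤ 1 := by
      rw [hc0sq, div_le_one (by positivity)]
      linarith
    nlinarith
  have cD2 : Continuous (Function.uncurry fun u t : ℝ => ‖D u t‖ ^ 2) := by
    have h1 : Continuous fun p : ℝ × ℝ => ‖D p.1 p.2‖ ^ 2 := cD.norm.pow 2
    exact h1
  have cA : Continuous fun u => ∫ t in (T + L)..(2 * T - L), ‖D u t‖ ^ 2 :=
    intervalIntegral.continuous_parametric_intervalIntegral_of_continuous' cD2 _ _
  have hA0 : ∀ u, 0 ≤ ∫ t in (T + L)..(2 * T - L), ‖D u t‖ ^ 2 := fun u =>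
    intervalIntegral.integral_nonneg hab fun t _ => sq_nonneg _
  have hpt : ∀ u ∈ Icc 0 (L / 2), |r u * (Cor V s u - T / (2 * Real.pi) * vs u)| ≤
      8 * C1 * T / L + 160 * C1 ^ 2 * T * (1 / ((1 + u) * Real.sqrt (1 + u))) +
        28 * L * ((∫ t in (T + L)..(2 * T - L), ‖D u t‖ ^ 2) * (1 / (1 + u) ^ 3)) := by
    intro u hu
    have hu0 := hu.1
    have hu1 := hu.2
    set A := ∫ t in (T + L)..(2 * T - L), ‖D u t‖ ^ 2 with hAdef
    have hAn : 0 ≤ A := hA0 u
    set Pn := ∫ t in (T + L)..(2 * T - L), ‖P u t‖ ^ 2 with hPndef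
    set w := 1 + u with hw
    have hs1 : 1 ≤ w := by linarith
    have hs0' : 0 < w := by linarith
    have hsL : w ≤ L := by linarith
    have hq0 : 0 < Real.sqrt w := Real.sqrt_pos.2 hs0'
    have hq1 : 1 ≤ Real.sqrt w := by
      rw [← Real.sqrt_one]
      exact Real.sqrt_le_sqrt hs1
    have hqq : Real.sqrt w * Real.sqrt w = w := Real.mul_self_sqrt hs0'.le
    set q := Real.sqrt w with hq
    have hqw : q ≤ w := by
      have h1 := mul_le_mul_of_nonneg_left hq1 hq0.le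
      rw [mul_one, hqq] at h1
      exact h1
    -- the bound of `r`
    have hr : |r u| * w ^ 2 ≤ 4 := by
      have h1 := hr1 u
      have h2 := hr2 u
      have h3 : w ^ 2 ≤ 2 + 2 * u ^ 2 := by
        rw [hw]
        nlinarith [sq_nonneg (1 - u)]
      calc |r u| * w ^ 2 ≤ |r u| * (2 + 2 * u ^ 2) := mul_le_mul_of_nonneg_left h3 (abs_nonneg _)
        _ = 2 * |r u| + 2 * (|r u| * u ^ 2) := by ring
        _ ≤ 4 := by linarith
    have hr' : |r u| ≤ 4 / w ^ 2 := by
      rw [le_div_iff₀ (by positivity)]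
      exact hr
    -- the parameter
    set η := w / L + 1 / q with hη
    have hη0 : 0 < η := by positivity
    have e1 : 1 + 1 / η ≤ 2 * q := by
      have h1 : 1 / η ≤ q := by
        rw [div_le_iff₀ hη0, hη, mul_add, mul_one_div, div_self hq0.ne']
        have : 0 ≤ q * (w / L) := by positivity
        linarith
      linarith
    have e2 : 1 + 1 / η ≤ 2 * (L / w) := by
      have h1 : 1 / η ≤ L / w := by
        rw [div_le_iff₀ hη0, hη, mul_add]
        have h2 : L / w * (w / L) = 1 := by field_simp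
        rw [h2]
        have : 0 ≤ L / w * (1 / q) := by positivity
        linarith
      have h2 : 1 ≤ L / w := by
        rw [le_div_iff₀ hs0']
        linarith
      linarith
    have hVout0 : 0 ≤ ∫ t in (Icc (T + L) (2 * T - L))ᶜ, ‖V u t‖ ^ 2 :=
      integral_nonneg fun t => sq_nonneg _
    have hVout := hout u hu0 hu1
    have hcu : Continuous fun t : ℝ => ((u, t) : ℝ × ℝ) := by fun_prop
    have cVu : Continuous (V u) := cV.comp hcu
    have cPu : Continuous (P u) := cP.comp hcu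
    have cDu : Continuous (D u) := cD.comp hcu
    have hone := mid (ε := C1 * (Real.exp (-u) + 1 / L)) hc00 hc01 hη0 hs0 habs (V u) (P u) (D u)
      cVu cPu cDu (fun t ht => hE u hu0 hu1 t ht)
    rw [← hAdef, ← hPndef] at hone
    have hmass := mass (ε := C1 * (Real.exp (-u) + 1 / L)) hc00 hc01 hab (V u) (P u) (D u)
      cVu cPu cDu (fun t ht => hE u hu0 hu1 t ht) (iV u)
    rw [← hAdef, ← hPndef] at hmass
    have htail := tail (θ := 1 / q) (by positivity) habs (V u) cVu (iV u)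
    have hε : (C1 * (Real.exp (-u) + 1 / L)) ^ 2 ≤ 4 * C1 ^ 2 := by
      have h1 : Real.exp (-u) ≤ 1 := Real.exp_le_one_iff.2 (by linarith)
      have h2 : 1 / L ≤ 1 := by
        rw [div_le_one hL0]
        linarith
      have h3 : 0 < Real.exp (-u) := Real.exp_pos _
      have h4 : 0 < 1 / L := by positivity
      have h5 : Real.exp (-u) + 1 / L ≤ 2 := by linarith
      calc (C1 * (Real.exp (-u) + 1 / L)) ^ 2 = C1 ^ 2 * (Real.exp (-u) + 1 / L) ^ 2 := by ring
        _ ≤ C1 ^ 2 * 2 ^ 2 :=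
          mul_le_mul_of_nonneg_left (pow_le_pow_left₀ (by positivity) h5 2) (sq_nonneg _)
        _ = 4 * C1 ^ 2 := by ring
    have hεT : (C1 * (Real.exp (-u) + 1 / L)) ^ 2 * (2 * T - L - (T + L)) ≤ 4 * C1 ^ 2 * T := by
      have h7 : 2 * T - L - (T + L) ≤ T := by linarith
      have h8 : 0 ≤ 2 * T - L - (T + L) := by linarith
      exact mul_le_mul hε h7 h8 (by positivity)
    have hPu := hPn u hu0 hu1
    rw [← hPndef] at hPu
    have hvu := hv u hu0 hu1
    have hPn1 : Pn ≤ 2 * C1 * T * w := by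
      have h1 := (abs_le.1 hPu).2
      have h2 : T * v u ≤ T * (C1 * (1 + u)) := mul_le_mul_of_nonneg_left hvu.2 hT0.le
      have h3 : C1 * T ≤ C1 * T * w := le_mul_of_one_le_right (by positivity) hs1
      calc Pn ≤ C1 * T + T * v u := by linarith
        _ ≤ C1 * T * w + T * (C1 * (1 + u)) := by linarith
        _ = 2 * C1 * T * w := by rw [hw]; ring
    have hC12 : C1 * T ≤ C1 ^ 2 * T := by
      have : C1 ≤ C1 ^ 2 := by nlinarith
      exact mul_le_mul_of_nonneg_right this hT0.le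
    -- the tail
    have htail' : ‖(∫ t : ℝ, V u t * (starRingEnd ℂ) (V u (t + s))) -
        ∫ t in (T + L)..(2 * T - L - s), V u t * (starRingEnd ℂ) (V u (t + s))‖ ≤
        1 / q * (6 * C1 * T * w + 3 * A + 13 * C1 ^ 2 * T) + q * (C1 * T) := by
      refine htail.trans ?_
      have h1 : (∫ t : ℝ, ‖V u t‖ ^ 2) ≤ 6 * C1 * T * w + 3 * A + 13 * C1 ^ 2 * T := by
        have h0 : 3 * (C1 * (Real.exp (-u) + 1 / L)) ^ 2 * (2 * T - L - (T + L)) ≤
            12 * C1 ^ 2 * T := by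
          calc _ = 3 * ((C1 * (Real.exp (-u) + 1 / L)) ^ 2 * (2 * T - L - (T + L))) := by ring
            _ ≤ 3 * (4 * C1 ^ 2 * T) := mul_le_mul_of_nonneg_left hεT (by norm_num)
            _ = _ := by ring
        linarith only [hmass, hVout, h0, hPn1, hC12]
      have h2 : 1 / (1 / q) = q := by rw [one_div_one_div]
      rw [h2]
      have h3 : 1 / q * (∫ t : ℝ, ‖V u t‖ ^ 2) ≤
          1 / q * (6 * C1 * T * w + 3 * A + 13 * C1 ^ 2 * T) :=
        mul_le_mul_of_nonneg_left h1 (by positivity)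
      have h4 : q * (∫ t in (Icc (T + L) (2 * T - L))ᶜ, ‖V u t‖ ^ 2) ≤ q * (C1 * T) :=
        mul_le_mul_of_nonneg_left hVout hq0.le
      exact add_le_add h3 h4
    have hmid' : ‖(∫ t in (T + L)..(2 * T - L - s), V u t * (starRingEnd ℂ) (V u (t + s))) -
        ((c0 ^ 2 : ℝ) : ℂ) * ∫ t in (T + L)..(2 * T - L - s), P u t * (starRingEnd ℂ) (P u (t + s))‖ ≤
        η * (2 * C1 * T * w) + (1 + 1 / η) * (2 * A) + (1 + 1 / η) * (8 * C1 ^ 2 * T) := by
      refine hone.trans ?_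
      have h4 : η * Pn ≤ η * (2 * C1 * T * w) := mul_le_mul_of_nonneg_left hPn1 hη0.le
      have h5 : 0 ≤ 1 + 1 / η := by positivity
      have h6 : 2 * (C1 * (Real.exp (-u) + 1 / L)) ^ 2 * (2 * T - L - (T + L)) ≤
          8 * C1 ^ 2 * T := by
        calc _ = 2 * ((C1 * (Real.exp (-u) + 1 / L)) ^ 2 * (2 * T - L - (T + L))) := by ring
          _ ≤ 2 * (4 * C1 ^ 2 * T) := mul_le_mul_of_nonneg_left hεT (by norm_num)
          _ = _ := by ring
      have h7 : (1 + 1 / η) * (2 * A + 2 * (C1 * (Real.exp (-u) + 1 / L)) ^ 2 *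
          (2 * T - L - (T + L))) ≤ (1 + 1 / η) * (2 * A + 8 * C1 ^ 2 * T) :=
        mul_le_mul_of_nonneg_left (add_le_add le_rfl h6) h5
      have t3 : (1 + 1 / η) * (2 * A + 8 * C1 ^ 2 * T) =
          (1 + 1 / η) * (2 * A) + (1 + 1 / η) * (8 * C1 ^ 2 * T) := mul_add _ _ _
      rw [add_assoc, ← t3]
      exact add_le_add h4 h7
    have hbase : |Cor V s u - T / (2 * Real.pi) * vs u| ≤
        1 / q * (6 * C1 * T * w + 3 * A + 13 * C1 ^ 2 * T) + q * (C1 * T) +
        (η * (2 * C1 * T * w) + (1 + 1 / η) * (2 * A) + (1 + 1 / η) * (8 * C1 ^ 2 * T)) +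
          C1 * T := by
      set z : ℂ := cexp (I * u * s) with hz
      have hz1 : ‖z‖ = 1 := by
        rw [hz, show I * (u : ℂ) * (s : ℂ) = ((u * s : ℝ) : ℂ) * I by push_cast; ring,
          Complex.norm_exp_ofReal_mul_I]
      set X := ∫ t : ℝ, V u t * (starRingEnd ℂ) (V u (t + s)) with hX
      set Y := ∫ t in (T + L)..(2 * T - L - s), V u t * (starRingEnd ℂ) (V u (t + s)) with hY
      set Z := ∫ t in (T + L)..(2 * T - L - s), P u t * (starRingEnd ℂ) (P u (t + s)) with hZ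
      have h1 : Cor V s u - T / (2 * Real.pi) * vs u =
          (z * (X - Y)).re + (z * (Y - ((c0 ^ 2 : ℝ) : ℂ) * Z)).re +
            c0 ^ 2 * ((z * Z).re - T * vs u) := by
        have h2 : Cor V s u = (z * X).re := rfl
        have h3 : c0 ^ 2 * (z * Z).re = (((c0 ^ 2 : ℝ) : ℂ) * (z * Z)).re := by
          rw [Complex.re_ofReal_mul]
        have h4 : z * X = z * (X - Y) + z * (Y - ((c0 ^ 2 : ℝ) : ℂ) * Z) +
            ((c0 ^ 2 : ℝ) : ℂ) * (z * Z) := by ring
        have h5 : (z * X).re = (z * (X - Y)).re + (z * (Y - ((c0 ^ 2 : ℝ) : ℂ) * Z)).re +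
            c0 ^ 2 * (z * Z).re := by
          rw [h3, ← Complex.add_re, ← Complex.add_re, ← h4]
        rw [h2, h5, mul_sub (c0 ^ 2)]
        have h6 : c0 ^ 2 * (T * vs u) = T / (2 * Real.pi) * vs u := by
          rw [hc0sq]
          ring
        rw [h6]
        ring
      have h2 : |c0 ^ 2 * ((z * Z).re - T * vs u)| ≤ C1 * T := by
        rw [abs_mul, abs_of_nonneg (sq_nonneg c0)]
        calc c0 ^ 2 * |(z * Z).re - T * vs u| ≤ 1 * (C1 * T) := by
              apply mul_le_mul _ (hPs u hu0 hu1) (abs_nonneg _) zero_le_one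
              exact pow_le_one₀ hc00 hc01
          _ = C1 * T := one_mul _
      have h3 : |(z * (X - Y)).re| ≤ ‖X - Y‖ := by
        refine (Complex.abs_re_le_norm _).trans ?_
        rw [norm_mul, hz1, one_mul]
      have h4 : |(z * (Y - ((c0 ^ 2 : ℝ) : ℂ) * Z)).re| ≤ ‖Y - ((c0 ^ 2 : ℝ) : ℂ) * Z‖ := by
        refine (Complex.abs_re_le_norm _).trans ?_
        rw [norm_mul, hz1, one_mul]
      rw [h1]
      have t1 := abs_add_le ((z * (X - Y)).re + (z * (Y - ((c0 ^ 2 : ℝ) : ℂ) * Z)).re)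
        (c0 ^ 2 * ((z * Z).re - T * vs u))
      have t2 := abs_add_le ((z * (X - Y)).re) ((z * (Y - ((c0 ^ 2 : ℝ) : ℂ) * Z)).re)
      exact t1.trans (add_le_add (t2.trans (add_le_add (h3.trans htail') (h4.trans hmid'))) h2)
    -- multiply
    rw [abs_mul]
    have hmul : |r u| * |Cor V s u - T / (2 * Real.pi) * vs u| ≤
        4 / w ^ 2 * (1 / q * (6 * C1 * T * w + 3 * A + 13 * C1 ^ 2 * T) + q * (C1 * T) +
        (η * (2 * C1 * T * w) + (1 + 1 / η) * (2 * A) + (1 + 1 / η) * (8 * C1 ^ 2 * T)) +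
          C1 * T) := mul_le_mul hr' hbase (abs_nonneg _) (by positivity)
    refine hmul.trans ?_
    have hwq : 1 / w ^ 2 ≤ 1 / (w * q) := by
      apply one_div_le_one_div_of_le (by positivity)
      rw [sq]
      exact mul_le_mul_of_nonneg_left hqw hs0'.le
    have hqw2 : q / w ^ 2 = 1 / (w * q) := by
      rw [div_eq_div_iff (by positivity) (by positivity)]
      calc q * (w * q) = w * (q * q) := by ring
        _ = 1 * w ^ 2 := by rw [hqq]; ring
    have hK0 : 0 ≤ 1 / (w * q) := by positivity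
    have hCT0 : 0 ≤ C1 * T := by positivity
    have g1 : 4 / w ^ 2 * (C1 * T) ≤ 4 * C1 ^ 2 * T * (1 / (w * q)) := by
      calc 4 / w ^ 2 * (C1 * T) = 4 * (C1 * T) * (1 / w ^ 2) := by ring
        _ ≤ 4 * (C1 ^ 2 * T) * (1 / (w * q)) :=
          mul_le_mul (by linarith) hwq (by positivity) (by positivity)
        _ = 4 * C1 ^ 2 * T * (1 / (w * q)) := by ring
    have g2 : 4 / w ^ 2 * (η * (2 * C1 * T * w)) ≤ 8 * C1 * T / L + 8 * C1 ^ 2 * T * (1 / (w * q)) := by
      have h3 : 4 / w ^ 2 * (η * (2 * C1 * T * w)) = 8 * C1 * T / L + 8 * (C1 * T) * (1 / (w * q)) := by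
        rw [hη]
        field_simp
        ring
      rw [h3]
      have h4 : 8 * (C1 * T) * (1 / (w * q)) ≤ 8 * (C1 ^ 2 * T) * (1 / (w * q)) :=
        mul_le_mul_of_nonneg_right (by linarith) (by positivity)
      calc 8 * C1 * T / L + 8 * (C1 * T) * (1 / (w * q)) ≤
          8 * C1 * T / L + 8 * (C1 ^ 2 * T) * (1 / (w * q)) := by linarith
        _ = _ := by ring
    have g3 : 4 / w ^ 2 * ((1 + 1 / η) * (2 * A)) ≤ 16 * L * (A * (1 / w ^ 3)) := by
      calc 4 / w ^ 2 * ((1 + 1 / η) * (2 * A)) ≤ 4 / w ^ 2 * (2 * (L / w) * (2 * A)) := by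
            apply mul_le_mul_of_nonneg_left _ (by positivity)
            exact mul_le_mul_of_nonneg_right e2 (by positivity)
        _ = 16 * L * (A * (1 / w ^ 3)) := by
            field_simp
            ring
    have g4 : 4 / w ^ 2 * ((1 + 1 / η) * (8 * C1 ^ 2 * T)) ≤ 64 * C1 ^ 2 * T * (1 / (w * q)) := by
      calc 4 / w ^ 2 * ((1 + 1 / η) * (8 * C1 ^ 2 * T)) ≤ 4 / w ^ 2 * (2 * q * (8 * C1 ^ 2 * T)) := by
            apply mul_le_mul_of_nonneg_left _ (by positivity)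
            exact mul_le_mul_of_nonneg_right e1 (by positivity)
        _ = 64 * C1 ^ 2 * T * (q / w ^ 2) := by ring
        _ = 64 * C1 ^ 2 * T * (1 / (w * q)) := by
            rw [hqw2]
    have g5 : 4 / w ^ 2 * (1 / q * (6 * C1 * T * w)) ≤ 24 * C1 ^ 2 * T * (1 / (w * q)) := by
      have h3 : 4 / w ^ 2 * (1 / q * (6 * C1 * T * w)) = 24 * (C1 * T) * (1 / (w * q)) := by
        field_simp
        ring
      rw [h3]
      have h4 : 24 * (C1 * T) * (1 / (w * q)) ≤ 24 * (C1 ^ 2 * T) * (1 / (w * q)) :=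
        mul_le_mul_of_nonneg_right (by linarith) (by positivity)
      refine h4.trans (le_of_eq (by ring))
    have g6 : 4 / w ^ 2 * (1 / q * (3 * A)) ≤ 12 * L * (A * (1 / w ^ 3)) := by
      have h3 : 1 / w ^ 2 ≤ L * (1 / w ^ 3) := by
        rw [mul_one_div, div_le_div_iff₀ (by positivity) (by positivity)]
        nlinarith [mul_le_mul_of_nonneg_right hsL (sq_nonneg w)]
      have h4 : 1 / q ≤ 1 := by
        rw [div_le_one hq0]
        exact hq1
      calc 4 / w ^ 2 * (1 / q * (3 * A)) = 12 * A * (1 / q) * (1 / w ^ 2) := by ring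
        _ ≤ 12 * A * 1 * (L * (1 / w ^ 3)) := by
            apply mul_le_mul _ h3 (by positivity) (by positivity)
            exact mul_le_mul_of_nonneg_left h4 (by positivity)
        _ = 12 * L * (A * (1 / w ^ 3)) := by ring
    have g7 : 4 / w ^ 2 * (1 / q * (13 * C1 ^ 2 * T)) ≤ 52 * C1 ^ 2 * T * (1 / (w * q)) := by
      have h4 : 1 / q ≤ 1 := by
        rw [div_le_one hq0]
        exact hq1
      calc 4 / w ^ 2 * (1 / q * (13 * C1 ^ 2 * T)) = 52 * C1 ^ 2 * T * (1 / q) * (1 / w ^ 2) := by ring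
        _ ≤ 52 * C1 ^ 2 * T * 1 * (1 / (w * q)) := by
            apply mul_le_mul _ hwq (by positivity) (by positivity)
            exact mul_le_mul_of_nonneg_left h4 (by positivity)
        _ = _ := by ring
    have g8 : 4 / w ^ 2 * (q * (C1 * T)) ≤ 4 * C1 ^ 2 * T * (1 / (w * q)) := by
      have h3 := hqw2
      calc 4 / w ^ 2 * (q * (C1 * T)) = 4 * (C1 * T) * (q / w ^ 2) := by ring
        _ = 4 * (C1 * T) * (1 / (w * q)) := by rw [h3]
        _ ≤ 4 * (C1 ^ 2 * T) * (1 / (w * q)) :=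
          mul_le_mul_of_nonneg_right (by linarith) hK0
        _ = _ := by ring
    have hKK : 0 ≤ C1 ^ 2 * T * (1 / (w * q)) := by positivity
    calc 4 / w ^ 2 * (1 / q * (6 * C1 * T * w + 3 * A + 13 * C1 ^ 2 * T) + q * (C1 * T) +
        (η * (2 * C1 * T * w) + (1 + 1 / η) * (2 * A) + (1 + 1 / η) * (8 * C1 ^ 2 * T)) +
          C1 * T) =
        4 / w ^ 2 * (1 / q * (6 * C1 * T * w)) + 4 / w ^ 2 * (1 / q * (3 * A)) +
        4 / w ^ 2 * (1 / q * (13 * C1 ^ 2 * T)) + 4 / w ^ 2 * (q * (C1 * T)) +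
        4 / w ^ 2 * (η * (2 * C1 * T * w)) +
          4 / w ^ 2 * ((1 + 1 / η) * (2 * A)) + 4 / w ^ 2 * ((1 + 1 / η) * (8 * C1 ^ 2 * T)) +
          4 / w ^ 2 * (C1 * T) := by ring
      _ ≤ 24 * C1 ^ 2 * T * (1 / (w * q)) + 12 * L * (A * (1 / w ^ 3)) +
          52 * C1 ^ 2 * T * (1 / (w * q)) + 4 * C1 ^ 2 * T * (1 / (w * q)) +
          (8 * C1 * T / L + 8 * C1 ^ 2 * T * (1 / (w * q))) +
          16 * L * (A * (1 / w ^ 3)) + 64 * C1 ^ 2 * T * (1 / (w * q)) +
          4 * C1 ^ 2 * T * (1 / (w * q)) :=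
          add_le_add (add_le_add (add_le_add (add_le_add (add_le_add (add_le_add
            (add_le_add g5 g6) g7) g8) g2) g3) g4) g1
      _ = 8 * C1 * T / L + 156 * (C1 ^ 2 * T * (1 / (w * q))) + 28 * L * (A * (1 / w ^ 3)) := by ring
      _ ≤ 8 * C1 * T / L + 160 * (C1 ^ 2 * T * (1 / (w * q))) + 28 * L * (A * (1 / w ^ 3)) := by
          linarith
      _ = 8 * C1 * T / L + 160 * C1 ^ 2 * T * (1 / (w * q)) + 28 * L * (A * (1 / w ^ 3)) := by ring
  -- integrate
  have iS : IntervalIntegrable (fun u : ℝ => 1 / ((1 + u) * Real.sqrt (1 + u))) volume 0 (L / 2) := by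
    apply ContinuousOn.intervalIntegrable
    intro u hu
    rw [uIcc_of_le hM0] at hu
    have h1 : (0 : ℝ) < 1 + u := by linarith [hu.1]
    apply ContinuousAt.continuousWithinAt
    apply ContinuousAt.div continuousAt_const (by fun_prop)
    exact (mul_pos h1 (Real.sqrt_pos.2 h1)).ne'
  have iA : IntervalIntegrable (fun u : ℝ =>
      (∫ t in (T + L)..(2 * T - L), ‖D u t‖ ^ 2) * (1 / (1 + u) ^ 3)) volume 0 (L / 2) := by
    apply ContinuousOn.intervalIntegrable
    apply cA.continuousOn.mul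
    intro u hu
    rw [uIcc_of_le hM0] at hu
    have h1 : (0 : ℝ) < 1 + u := by linarith [hu.1]
    apply ContinuousAt.continuousWithinAt
    apply ContinuousAt.div continuousAt_const (by fun_prop)
    exact (pow_pos h1 3).ne'
  have hint : (∫ u in (0 : ℝ)..(L / 2), r u * Cor V s u) -
      T / (2 * Real.pi) * ∫ u in (0 : ℝ)..(L / 2), r u * vs u =
      ∫ u in (0 : ℝ)..(L / 2), r u * (Cor V s u - T / (2 * Real.pi) * vs u) := by
    rw [← intervalIntegral.integral_const_mul, ← intervalIntegral.integral_sub]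
    · congr 1
      funext u
      ring
    · exact (cr.mul cCor).intervalIntegrable _ _
    · exact ((cr.mul cvs).const_mul _ |>.intervalIntegrable _ _)
  rw [hint]
  have hfin : ‖∫ u in (0 : ℝ)..(L / 2), r u * (Cor V s u - T / (2 * Real.pi) * vs u)‖ ≤
      ∫ u in (0 : ℝ)..(L / 2), (8 * C1 * T / L + 160 * C1 ^ 2 * T * (1 / ((1 + u) * Real.sqrt (1 + u))) +
        28 * L * ((∫ t in (T + L)..(2 * T - L), ‖D u t‖ ^ 2) * (1 / (1 + u) ^ 3))) := by
    apply intervalIntegral.norm_integral_le_of_norm_le hM0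
    · refine Filter.Eventually.of_forall fun u hu => ?_
      rw [Real.norm_eq_abs]
      exact hpt u (Ioc_subset_Icc_self hu)
    · exact (intervalIntegrable_const.add (iS.const_mul _)).add (iA.const_mul _)
  rw [Real.norm_eq_abs] at hfin
  refine hfin.trans ?_
  rw [intervalIntegral.integral_add (intervalIntegrable_const.add (iS.const_mul _)) (iA.const_mul _),
    intervalIntegral.integral_add intervalIntegrable_const (iS.const_mul _),
    intervalIntegral.integral_const_mul, intervalIntegral.integral_const_mul,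
    intervalIntegral.integral_const, smul_eq_mul]
  have k1 := int_pow (L / 2) hM0
  have k2 := int_parts (L / 2) (C1 * T / L ^ 2) hM _ cA hA0 (by positivity) (fun U h1 h2 => by
    have := hDn U h1 h2
    calc _ ≤ C1 * U ^ 4 * T / L ^ 2 := this
      _ = C1 * T / L ^ 2 * U ^ 4 := by ring)
  have m1 : (L / 2 - 0) * (8 * C1 * T / L) = 4 * C1 * T := by
    field_simp
    ring
  have m2 : 160 * C1 ^ 2 * T * (∫ u in (0 : ℝ)..(L / 2), 1 / ((1 + u) * Real.sqrt (1 + u))) ≤
      160 * C1 ^ 2 * T * 2 := mul_le_mul_of_nonneg_left k1 (by positivity)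
  have m3 : 28 * L * (∫ u in (0 : ℝ)..(L / 2),
      (∫ t in (T + L)..(2 * T - L), ‖D u t‖ ^ 2) * (1 / (1 + u) ^ 3)) ≤ 63 * C1 * T := by
    calc _ ≤ 28 * L * (C1 * T / L ^ 2 * (1 + 4 * (L / 2))) :=
          mul_le_mul_of_nonneg_left k2 (by positivity)
      _ = 28 * C1 * T / L + 56 * C1 * T := by
          field_simp
          ring
      _ ≤ 63 * C1 * T := by
          have : 28 * C1 * T / L ≤ 7 * C1 * T := by
            rw [div_le_iff₀ hL0]
            have : 0 ≤ C1 * T := by positivity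
            nlinarith
          have : 0 ≤ C1 * T := by positivity
          linarith
  rw [m1]
  have h2 : C1 * T ≤ C1 ^ 2 * T := by
    have : C1 ≤ C1 ^ 2 := by nlinarith
    exact mul_le_mul_of_nonneg_right this hT0.le
  have h3 : 0 ≤ C1 ^ 2 * T := by positivity
  linarith only [m2, m3, h2, h3]

end Pool.Agent.U114.MV2.ENS
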